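import Pool.Agent.K4H25.FH.Spec

set_option autoImplicit false

namespace Pool.Agent.K4H25.FH

open Finset

theorem gam_even (H : ℝ) (j : ℤ) : gam H (-j) = gam H j := by
  unfold gam
  have e1 : |((-j : ℤ) : ℝ) + 1| = |(j : ℝ) - 1| := by
    rw [show ((-j : ℤ) : ℝ) + 1 = -((j : ℝ) - 1) by push_cast; ring, abs_neg]
  have e2 : |((-j : ℤ) : ℝ) - 1| = |(j : ℝ) + 1| := by
    rw [show ((-j : ℤ) : ℝ) - 1 = -((j : ℝ) + 1) by push_cast; ring, abs_neg]
  have e3 : |((-j : ℤ) : ℝ)| = |(j : ℝ)| := by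
    rw [show ((-j : ℤ) : ℝ) = -(j : ℝ) by push_cast; ring, abs_neg]
  rw [e1, e2, e3]
  ring

theorem dlt_even (H : ℝ) (j : ℤ) : dlt H (-j) = dlt H j := by
  unfold dlt
  rw [gam_even, show -j + 1 = -(j - 1) by ring, show -j - 1 = -(j + 1) by ring, gam_even, gam_even]
  ring

theorem dlt_succ (H : ℝ) (n : ℕ) : dlt H ((n : ℤ) + 1) = phi H (n + 1) - phi H n := by
  unfold dlt phi
  push_cast
  rw [show ((n : ℤ) + 1 - 1) = (n : ℤ) by ring]
  ring

theorem row {H : ℝ} (i n : ℕ) :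
    ∑ m ∈ range (i + n + 1), dlt H ((i : ℤ) - (m : ℤ)) = phi H i + phi H n := by
  have h : ∀ M : ℕ, ∑ m ∈ range M, dlt H ((i : ℤ) - (m : ℤ)) =
      (gam H i - gam H (i + 1)) - (gam H ((i : ℤ) - M) - gam H ((i : ℤ) - M + 1)) := by
    intro M
    induction M with
    | zero => simp
    | succ M ih =>
      rw [Finset.sum_range_succ, ih]
      unfold dlt
      push_cast
      rw [show (i : ℤ) - ((M : ℤ) + 1) = (i : ℤ) - M - 1 by ring,
        show (i : ℤ) - (M : ℤ) - 1 + 1 = (i : ℤ) - M by ring]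
      ring
  rw [h]
  unfold phi
  push_cast
  rw [show (i : ℤ) - ((i : ℤ) + n + 1) = -((n : ℤ) + 1) by ring,
    show -((n : ℤ) + 1) + 1 = -(n : ℤ) by ring, gam_even, gam_even]
  ring

theorem gam_nonneg {H : ℝ} (h : 1 / 2 < H) (h1 : H < 1) (j : ℤ) : 0 ≤ gam H j := by
  unfold gam
  have hs : 1 ≤ 2 * H := by linarith
  have h2 := (convexOn_rpow hs).2 (abs_nonneg ((j : ℝ) + 1)) (abs_nonneg ((j : ℝ) - 1))
    (by norm_num : (0 : ℝ) ≤ 1 / 2) (by norm_num : (0 : ℝ) ≤ 1 / 2) (by norm_num)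
  simp only [smul_eq_mul] at h2
  have h3 : |(j : ℝ)| ^ (2 * H) ≤ (1 / 2 * |(j : ℝ) + 1| + 1 / 2 * |(j : ℝ) - 1|) ^ (2 * H) := by
    apply Real.rpow_le_rpow (abs_nonneg _) _ (by linarith)
    have : |(j : ℝ)| = |1 / 2 * ((j : ℝ) + 1) + 1 / 2 * ((j : ℝ) - 1)| := by congr 1; ring
    rw [this]
    refine (abs_add_le _ _).trans ?_
    rw [abs_mul, abs_mul, abs_of_pos (by norm_num : (0 : ℝ) < 1 / 2)]
  linarith

/-- strict concavity of `x ^ p`: the increments decrease -/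
theorem incr_anti {p : ℝ} (hp : 0 < p) (hp1 : p < 1) {x y : ℝ} (hx : 0 ≤ x) (hxy : x < y) :
    (y + 1) ^ p - y ^ p < (x + 1) ^ p - x ^ p := by
  have hc := Real.strictConcaveOn_rpow hp hp1
  have hL : 0 < y + 1 - x := by linarith
  set l : ℝ := 1 / (y + 1 - x) with hl
  have hl0 : 0 < l := by positivity
  have hl1 : l < 1 := by rw [hl, div_lt_one hL]; linarith
  have hlL : l * (y + 1 - x) = 1 := by rw [hl]; field_simp
  have m1 : x ∈ Set.Ici (0 : ℝ) := hx
  have m2 : y + 1 ∈ Set.Ici (0 : ℝ) := by simp only [Set.mem_Ici]; linarith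
  have hne : x ≠ y + 1 := by linarith
  have a1 := hc.2 m1 m2 hne (by linarith : 0 < 1 - l) hl0 (by ring)
  have a2 := hc.2 m1 m2 hne hl0 (by linarith : 0 < 1 - l) (by ring)
  simp only [smul_eq_mul] at a1 a2
  rw [show (1 - l) * x + l * (y + 1) = x + 1 by linear_combination hlL] at a1
  rw [show l * x + (1 - l) * (y + 1) = y by linear_combination -hlL] at a2
  linarith

/-- the third differences of `x ^ s`, `1 < s < 2`, are negative -/
theorem third_neg {s : ℝ} (hs : 1 < s) (hs2 : s < 2) {a : ℝ} (ha : 0 ≤ a) :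
    (a + 3) ^ s - 3 * (a + 2) ^ s + 3 * (a + 1) ^ s - a ^ s < 0 := by
  have hd : ∀ y : ℝ, HasDerivAt (fun y : ℝ => (y + 1) ^ s - y ^ s)
      (s * ((y + 1) ^ (s - 1) - y ^ (s - 1))) y := by
    intro y
    have e1 : HasDerivAt (fun y : ℝ => y ^ s) (s * y ^ (s - 1)) y := by
      simpa using Real.hasDerivAt_rpow_const (x := y) (p := s) (Or.inr hs.le)
    have e2 : HasDerivAt (fun y : ℝ => (y + 1) ^ s) (s * (y + 1) ^ (s - 1)) y := by
      have := (Real.hasDerivAt_rpow_const (x := y + 1) (p := s) (Or.inr hs.le)).comp y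
        ((hasDerivAt_id y).add_const 1)
      simpa [Function.comp_def] using this
    exact (e2.fun_sub e1).congr_deriv (by ring)
  have hcc : StrictConcaveOn ℝ (Set.Ici (0 : ℝ)) (fun y : ℝ => (y + 1) ^ s - y ^ s) := by
    apply StrictAntiOn.strictConcaveOn_of_deriv (convex_Ici 0)
    · exact fun y _ => (hd y).continuousAt.continuousWithinAt
    · intro x hx y hy hxy
      rw [(hd x).deriv, (hd y).deriv]
      rw [interior_Ici] at hx
      have := incr_anti (p := s - 1) (by linarith) (by linarith) (le_of_lt hx) hxy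
      have hs0 : 0 < s := by linarith
      nlinarith
  have m1 : a ∈ Set.Ici (0 : ℝ) := ha
  have m2 : a + 2 ∈ Set.Ici (0 : ℝ) := by simp only [Set.mem_Ici]; linarith
  have := hcc.2 m1 m2 (by linarith)
    (by norm_num : (0 : ℝ) < 1 / 2) (by norm_num : (0 : ℝ) < 1 / 2) (by norm_num)
  simp only [smul_eq_mul] at this
  rw [show 1 / 2 * a + 1 / 2 * (a + 2) = a + 1 by ring, show a + 1 + 1 = a + 2 by ring,
    show a + 2 + 1 = a + 3 by ring] at this
  linarith

/-- the fourth differences of `x ^ s`, `1 < s < 2`, are nonnegative -/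
theorem fourth_nonneg {s : ℝ} (hs : 1 < s) (hs2 : s < 2) {a : ℝ} (ha : 0 ≤ a) :
    0 ≤ (a + 4) ^ s - 4 * (a + 3) ^ s + 6 * (a + 2) ^ s - 4 * (a + 1) ^ s + a ^ s := by
  have hr : ∀ (c y : ℝ), HasDerivAt (fun y : ℝ => (y + c) ^ s) (s * (y + c) ^ (s - 1)) y := by
    intro c y
    have := (Real.hasDerivAt_rpow_const (x := y + c) (p := s) (Or.inr hs.le)).comp y
      ((hasDerivAt_id y).add_const c)
    simpa [Function.comp_def] using this
  have hr2 : ∀ (c y : ℝ), 0 < y + c →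
      HasDerivAt (fun y : ℝ => (y + c) ^ (s - 1)) ((s - 1) * (y + c) ^ (s - 1 - 1)) y := by
    intro c y hy
    have := (Real.hasDerivAt_rpow_const (x := y + c) (p := s - 1) (Or.inl hy.ne')).comp y
      ((hasDerivAt_id y).add_const c)
    simpa [Function.comp_def] using this
  have hd : ∀ y : ℝ, HasDerivAt (fun y : ℝ => (y + 2) ^ s - 2 * (y + 1) ^ s + (y + 0) ^ s)
      (s * ((y + 2) ^ (s - 1) - 2 * (y + 1) ^ (s - 1) + (y + 0) ^ (s - 1))) y := by
    intro y
    exact (((hr 2 y).fun_sub ((hr 1 y).const_mul 2)).fun_add (hr 0 y)).congr_deriv (by ring)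
  have hmono : MonotoneOn (fun y : ℝ => s * ((y + 2) ^ (s - 1) - 2 * (y + 1) ^ (s - 1) + (y + 0) ^ (s - 1)))
      (Set.Ioi (0 : ℝ)) := by
    have hd2 : ∀ y : ℝ, 0 < y → HasDerivAt
        (fun y : ℝ => s * ((y + 2) ^ (s - 1) - 2 * (y + 1) ^ (s - 1) + (y + 0) ^ (s - 1)))
        (s * ((s - 1) * (y + 2) ^ (s - 1 - 1) - 2 * ((s - 1) * (y + 1) ^ (s - 1 - 1)) +
          (s - 1) * (y + 0) ^ (s - 1 - 1))) y := by
      intro y hy
      exact (((hr2 2 y (by linarith)).fun_sub ((hr2 1 y (by linarith)).const_mul 2)).fun_add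
        (hr2 0 y (by linarith))).const_mul s
    apply monotoneOn_of_deriv_nonneg (convex_Ioi 0)
    · exact fun y hy => (hd2 y hy).continuousAt.continuousWithinAt
    · rw [interior_Ioi]
      exact fun y hy => (hd2 y hy).differentiableAt.differentiableWithinAt
    · rw [interior_Ioi]
      intro y hy
      have hy : 0 < y := hy
      rw [(hd2 y hy).deriv]
      set q : ℝ := s - 1 - 1 with hq
      have hq0 : q < 0 := by rw [hq]; linarith
      have k1 : (y + 1) ^ q ≤ (y * (y + 2)) ^ (q / 2) := by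
        rw [show (y + 1) ^ q = ((y + 1) ^ (2 : ℝ)) ^ (q / 2) by
          rw [← Real.rpow_mul (by linarith)]; congr 1; ring]
        apply Real.rpow_le_rpow_of_nonpos (by positivity) _ (by linarith)
        rw [Real.rpow_two]
        nlinarith
      have k2 : (y * (y + 2)) ^ (q / 2) = y ^ (q / 2) * (y + 2) ^ (q / 2) :=
        Real.mul_rpow hy.le (by linarith)
      have k3 : y ^ q = (y ^ (q / 2)) ^ 2 := by
        rw [← Real.rpow_natCast, ← Real.rpow_mul hy.le]; congr 1; push_cast; ring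
      have k4 : (y + 2) ^ q = ((y + 2) ^ (q / 2)) ^ 2 := by
        rw [← Real.rpow_natCast, ← Real.rpow_mul (by linarith)]; congr 1; push_cast; ring
      have k5 : 0 ≤ (y + 2) ^ q - 2 * (y + 1) ^ q + (y + 0) ^ q := by
        rw [add_zero]
        nlinarith [sq_nonneg (y ^ (q / 2) - (y + 2) ^ (q / 2))]
      have k6 : 0 ≤ s * (s - 1) := by nlinarith
      nlinarith [mul_nonneg k6 k5]
  have hcx : ConvexOn ℝ (Set.Ici (0 : ℝ)) (fun y : ℝ => (y + 2) ^ s - 2 * (y + 1) ^ s + (y + 0) ^ s) := by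
    apply MonotoneOn.convexOn_of_deriv (convex_Ici 0)
    · exact fun y _ => (hd y).continuousAt.continuousWithinAt
    · exact fun y _ => (hd y).differentiableAt.differentiableWithinAt
    · rw [interior_Ici]
      intro x hx y hy hxy
      rw [(hd x).deriv, (hd y).deriv]
      exact hmono hx hy hxy
  have m1 : a ∈ Set.Ici (0 : ℝ) := ha
  have m2 : a + 2 ∈ Set.Ici (0 : ℝ) := by simp only [Set.mem_Ici]; linarith
  have := hcx.2 m1 m2
    (by norm_num : (0 : ℝ) ≤ 1 / 2) (by norm_num : (0 : ℝ) ≤ 1 / 2) (by norm_num)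
  simp only [smul_eq_mul] at this
  rw [show 1 / 2 * a + 1 / 2 * (a + 2) = a + 1 by ring, show a + 1 + 1 = a + 2 by ring,
    show a + 1 + 2 = a + 3 by ring, show a + 2 + 1 = a + 3 by ring, show a + 2 + 2 = a + 4 by ring,
    show a + 1 + 0 = a + 1 by ring, show a + 0 = a by ring, show a + 2 + 0 = a + 2 by ring] at this
  linarith

theorem phi_zero {H : ℝ} (h : 1 / 2 < H) : phi H 0 = (4 - (2 : ℝ) ^ (2 * H)) / 2 := by
  unfold phi gam
  have : (2 * H) ≠ 0 := by linarith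
  norm_num [Real.zero_rpow this]
  ring

theorem phi_succ (H : ℝ) (n : ℕ) : phi H (n + 1) =
    -(((n : ℝ) + 3) ^ (2 * H) - 3 * ((n : ℝ) + 2) ^ (2 * H) + 3 * ((n : ℝ) + 1) ^ (2 * H) -
      (n : ℝ) ^ (2 * H)) / 2 := by
  unfold phi gam
  push_cast
  have hn : (0 : ℝ) ≤ n := Nat.cast_nonneg n
  rw [show (n : ℝ) + 1 + 1 + 1 = n + 3 by ring, show (n : ℝ) + 1 + 1 - 1 = n + 1 by ring,
    show (n : ℝ) + 1 + 1 = n + 2 by ring, show (n : ℝ) + 1 - 1 = n by ring,
    abs_of_nonneg (by linarith : (0 : ℝ) ≤ (n : ℝ) + 3), abs_of_nonneg (by linarith : (0 : ℝ) ≤ (n : ℝ) + 2),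
    abs_of_nonneg (by linarith : (0 : ℝ) ≤ (n : ℝ) + 1), abs_of_nonneg hn]
  ring

theorem phi_pos {H : ℝ} (h : 1 / 2 < H) (h1 : H < 1) (n : ℕ) : 0 < phi H n := by
  cases n with
  | zero =>
    rw [phi_zero h]
    have : (2 : ℝ) ^ (2 * H) < (2 : ℝ) ^ (2 : ℝ) :=
      Real.rpow_lt_rpow_of_exponent_lt (by norm_num) (by linarith)
    rw [show (2 : ℝ) ^ (2 : ℝ) = 4 by norm_num] at this
    linarith
  | succ n =>
    rw [phi_succ]
    have := third_neg (s := 2 * H) (by linarith) (by linarith) (Nat.cast_nonneg n : (0 : ℝ) ≤ n)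
    linarith

theorem dlt_one_neg {H : ℝ} (h : 1 / 2 < H) (h1 : H < 1) : dlt H 1 < 0 := by
  have e : dlt H 1 = (4 * (2 : ℝ) ^ (2 * H) - (3 : ℝ) ^ (2 * H) - 7) / 2 := by
    unfold dlt gam
    have : (2 * H) ≠ 0 := by linarith
    norm_num [Real.zero_rpow this]
    ring
  rw [e]
  set u : ℝ := 2 - 2 * H with hu
  have hu0 : 0 < u := by rw [hu]; linarith
  have hH : 2 * H = 2 - u := by rw [hu]; ring
  rw [hH]
  have e2 : (2 : ℝ) ^ (2 - u) = 4 / (2 : ℝ) ^ u := by
    rw [Real.rpow_sub (by norm_num)]; norm_num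
  have e3 : (3 : ℝ) ^ (2 - u) = 9 * ((2 / 3 : ℝ) ^ u) / (2 : ℝ) ^ u := by
    rw [Real.rpow_sub (by norm_num), Real.div_rpow (by norm_num) (by norm_num)]
    have : (3 : ℝ) ^ u ≠ 0 := by positivity
    have : (2 : ℝ) ^ u ≠ 0 := by positivity
    field_simp
    norm_num
  rw [e2, e3]
  have b1 : 1 + u * Real.log 2 ≤ (2 : ℝ) ^ u := by
    rw [Real.rpow_def_of_pos (by norm_num)]
    have := Real.add_one_le_exp (Real.log 2 * u)
    linarith
  have b2 : 1 - u * Real.log (3 / 2) ≤ (2 / 3 : ℝ) ^ u := by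
    rw [Real.rpow_def_of_pos (by norm_num)]
    have := Real.add_one_le_exp (Real.log (2 / 3) * u)
    have e : Real.log (2 / 3) = -Real.log (3 / 2) := by
      rw [← Real.log_inv]; norm_num
    rw [e] at this ⊢
    linarith
  have b3 : 9 * Real.log (3 / 2) < 7 * Real.log 2 := by
    have e1 : 9 * Real.log (3 / 2) = Real.log ((3 / 2) ^ 9) := by rw [Real.log_pow]; norm_num
    have e2 : 7 * Real.log 2 = Real.log (2 ^ 7) := by rw [Real.log_pow]; norm_num
    rw [e1, e2]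
    exact Real.log_lt_log (by norm_num) (by norm_num)
  have h2u : 0 < (2 : ℝ) ^ u := by positivity
  have key : 16 - 9 * (2 / 3 : ℝ) ^ u - 7 * (2 : ℝ) ^ u < 0 := by nlinarith
  have : (4 * (4 / (2 : ℝ) ^ u) - 9 * (2 / 3 : ℝ) ^ u / (2 : ℝ) ^ u - 7) / 2 =
      (16 - 9 * (2 / 3 : ℝ) ^ u - 7 * (2 : ℝ) ^ u) / (2 * (2 : ℝ) ^ u) := by
    field_simp
    ring
  rw [this]
  exact div_neg_of_neg_of_pos key (by positivity)

theorem phi_anti {H : ℝ} (h : 1 / 2 < H) (h1 : H < 1) (n : ℕ) : phi H (n + 1) ≤ phi H n := by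
  cases n with
  | zero =>
    have := dlt_one_neg h h1
    have e := dlt_succ H 0
    norm_num at e
    rw [e] at this
    simpa using this.le
  | succ n =>
    rw [phi_succ H (n + 1), phi_succ H n]
    have := fourth_nonneg (s := 2 * H) (by linarith) (by linarith) (Nat.cast_nonneg n : (0 : ℝ) ≤ n)
    push_cast
    rw [show (n : ℝ) + 1 + 3 = n + 4 by ring, show (n : ℝ) + 1 + 2 = n + 3 by ring,
      show (n : ℝ) + 1 + 1 = n + 2 by ring]
    linarith

theorem dlt_nonpos {H : ℝ} (h : 1 / 2 < H) (h1 : H < 1) {j : ℤ} (hj : j ≠ 0) : dlt H j ≤ 0 := by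
  have main : ∀ n : ℕ, dlt H ((n : ℤ) + 1) ≤ 0 := by
    intro n
    rw [dlt_succ]
    linarith [phi_anti h h1 n]
  rcases lt_or_gt_of_ne hj with hj | hj
  · obtain ⟨n, hn⟩ := Int.eq_ofNat_of_zero_le (by omega : 0 ≤ -j - 1)
    have := main n
    rw [show ((n : ℤ) + 1) = -j by omega, dlt_even] at this
    exact this
  · obtain ⟨n, hn⟩ := Int.eq_ofNat_of_zero_le (by omega : 0 ≤ j - 1)
    have := main n
    rw [show ((n : ℤ) + 1) = j by omega] at this
    exact this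

theorem mt_dlt_of {H C : ℝ} (h : 1 / 2 < H) (h1 : H < 1)
    (key : ∀ n : ℕ, ((n : ℝ) + 1) * (- dlt H ((n : ℤ) + 1)) ≤ C * phi H n) :
    MT (dlt H) (phi H) C :=
  ⟨fun _ hj => dlt_nonpos h h1 hj, phi_pos h h1, fun i n => row i n, key⟩

end Pool.Agent.K4H25.FH
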