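import Pool.Agent.K4H59.TL.Spec

open Set

namespace Pool.Agent.K4H59.TL

open Pool.Agent.K4H72.Til (IsPolygon ShareEdge IsTiling Tile Derivable Adj HasLocEig)

theorem m7_edge_of_exposed {A e : Set ℂ} (he : IsExposed ℝ A e) (hn : e.Nontrivial) (hne : e ≠ A) :
    IsEdge A e := by
  obtain ⟨l, hl⟩ := he hn.nonempty
  obtain ⟨x0, hx0⟩ := hn.nonempty
  have hx0' := hx0
  rw [hl] at hx0'
  refine ⟨hn, l, l x0, ?_, hx0'.2, ?_⟩
  · rintro rfl
    apply hne
    rw [hl]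
    ext x
    simp
  · ext x
    constructor
    · intro hx
      rw [hl] at hx
      exact ⟨hx.1, le_antisymm (hx0'.2 x hx.1) (hx.2 x0 hx0'.1)⟩
    · rintro ⟨hx, hx2⟩
      rw [hl]
      exact ⟨hx, fun y hy => by rw [hx2]; exact hx0'.2 y hy⟩

theorem m7_exposed_of_edge {A e : Set ℂ} (he : IsEdge A e) : IsExposed ℝ A e := by
  intro hn
  obtain ⟨_, φ, c, _, hle, rfl⟩ := he
  obtain ⟨x0, hx0, hx0c⟩ := hn
  refine ⟨φ, ?_⟩
  ext x
  constructor
  · rintro ⟨hx, hxc⟩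
    exact ⟨hx, fun y hy => by rw [hxc]; exact hle y hy⟩
  · rintro ⟨hx, hx2⟩
    exact ⟨hx, le_antisymm (hle x hx) (by rw [← hx0c]; exact hx2 x0 hx0)⟩

theorem m7_edge_ne {A e : Set ℂ} (hA : IsPolygon A) (he : IsEdge A e) : e ≠ A := by
  obtain ⟨_, φ, c, hφ, _, rfl⟩ := he
  intro h
  obtain ⟨hne, _, hcl, _⟩ := hA
  have hint : (interior A).Nonempty := by
    obtain ⟨a, ha⟩ := hne
    exact closure_nonempty_iff.1 ⟨a, hcl ha⟩
  obtain ⟨z, hz⟩ := hint
  obtain ⟨ε, hε, hball⟩ := Metric.isOpen_iff.1 isOpen_interior z hz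
  obtain ⟨w, hw⟩ : ∃ w, φ w ≠ 0 := by
    by_contra hcon
    push Not at hcon
    exact hφ (ContinuousLinearMap.ext hcon)
  have hw0 : w ≠ 0 := by
    rintro rfl
    exact hw (map_zero φ)
  have hwn : 0 < ‖w‖ := norm_pos_iff.2 hw0
  set t : ℝ := ε / (2 * ‖w‖) with ht
  have ht0 : 0 < t := by positivity
  have hall : ∀ x ∈ A, φ x = c := by
    intro x hx
    rw [← h] at hx
    exact hx.2
  have h1 := hall z (interior_subset hz)
  have hmem : z + t • w ∈ Metric.ball z ε := by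
    rw [Metric.mem_ball, dist_eq_norm, add_sub_cancel_left, norm_smul, Real.norm_eq_abs,
      abs_of_pos ht0, ht]
    have : ε / (2 * ‖w‖) * ‖w‖ = ε / 2 := by field_simp
    rw [this]
    linarith
  have h2 := hall _ (interior_subset (hball hmem))
  rw [map_add, map_smul, h1, smul_eq_mul] at h2
  have h3 : t * φ w = 0 := by linarith
  rcases mul_eq_zero.1 h3 with h4 | h4
  · exact ht0.ne' h4
  · exact hw h4

/-- PIECE M7.  the two notions of sharing an edge agree for polygons -/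
theorem share_iff {A B : Set ℂ} (hA : IsPolygon A) (hB : IsPolygon B) : ShareEdge A B ↔ Share A B := by
  constructor
  · rintro ⟨e, h1, h2, hn, h3, h4⟩
    exact ⟨e, m7_edge_of_exposed h1 hn h3, m7_edge_of_exposed h2 hn h4⟩
  · rintro ⟨e, h1, h2⟩
    exact ⟨e, m7_exposed_of_edge h1, m7_exposed_of_edge h2, h1.1, m7_edge_ne hA h1, m7_edge_ne hB h2⟩

end Pool.Agent.K4H59.TL
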