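import Pool.Agent.K4H13.TLM7

open Set Filter Topology

namespace Pool.Agent.K4H59.TL

open Pool.Agent.K4H72.Til (IsPolygon ShareEdge IsTiling Tile Derivable Adj HasLocEig)

theorem n1_prop {φ ψ : ℂ →L[ℝ] ℝ} (hφ : φ ≠ 0) {w : ℂ} (hw : w ≠ 0) (h1 : φ w = 0) (h2 : ψ w = 0) :
    ∃ l : ℝ, ∀ z, ψ z = l * φ z := by
  have key : ∀ (χ : ℂ →L[ℝ] ℝ), χ w = 0 → ∀ z, χ z = (z / w).im * χ (Complex.I * w) := by
    intro χ hχ z
    have hz : z = (z / w).re • w + (z / w).im • (Complex.I * w) := by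
      have e : z = (z / w) * w := by field_simp
      conv_lhs => rw [e, ← Complex.re_add_im (z / w)]
      simp only [Complex.real_smul]
      ring
    conv_lhs => rw [hz]
    rw [map_add, map_smul, map_smul, hχ]
    simp
  have hI : φ (Complex.I * w) ≠ 0 := by
    intro h
    apply hφ
    ext z
    rw [key φ h1 z, h]
    simp
  refine ⟨ψ (Complex.I * w) / φ (Complex.I * w), fun z => ?_⟩
  rw [key ψ h2 z, key φ h1 z]
  generalize φ (Complex.I * w) = A at hI ⊢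
  generalize ψ (Complex.I * w) = B
  field_simp

theorem n1_lt {K : Set ℂ} {φ : ℂ →L[ℝ] ℝ} {c : ℝ} (hφ : φ ≠ 0) (hle : ∀ x ∈ K, φ x ≤ c) {z : ℂ}
    (hz : K ∈ 𝓝 z) : φ z < c := by
  refine lt_of_le_of_ne (hle z (mem_of_mem_nhds hz)) ?_
  intro hc
  apply hφ
  have hloc : IsLocalMax φ z := by
    filter_upwards [hz] with y hy
    rw [hc]
    exact hle y hy
  have := hloc.hasFDerivAt_eq_zero φ.hasFDerivAt
  exact this

theorem n1_int {K : Set ℂ} (hK : IsPolygon K) : (interior K).Nonempty := by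
  obtain ⟨⟨a, ha⟩, _, hcl, _⟩ := hK
  exact closure_nonempty_iff.1 ⟨a, hcl ha⟩

/-- near the midpoint of an edge a polygon is a half disc -/
theorem n1_half {K : Set ℂ} (hK : IsPolygon K) {φ : ℂ →L[ℝ] ℝ} {c : ℝ} (hφ : φ ≠ 0)
    (hle : ∀ x ∈ K, φ x ≤ c) {x y : ℂ} (hx : x ∈ K) (hy : y ∈ K) (hxy : x ≠ y) (hxc : φ x = c)
    (hyc : φ y = c) : ∀ᶠ z in 𝓝 ((1 / 2 : ℝ) • (x + y)), φ z ≤ c → z ∈ K := by
  obtain ⟨z0, hz0⟩ := n1_int hK
  have hz0' := n1_lt hφ hle (mem_interior_iff_mem_nhds.1 hz0)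
  have hz0K := interior_subset hz0
  obtain ⟨_, _, _, s, hs, rfl⟩ := hK
  set m : ℂ := (1 / 2 : ℝ) • (x + y) with hm
  have hmφ : ∀ χ : ℂ →L[ℝ] ℝ, χ m = (χ x + χ y) / 2 := by
    intro χ
    rw [hm, map_smul, map_add, smul_eq_mul]
    ring
  have main : ∀ p ∈ s, ∀ᶠ z in 𝓝 m, φ z ≤ c → p.1 z ≤ p.2 := by
    intro p hp
    rcases lt_or_ge (p.1 m) p.2 with h | h
    · have : ∀ᶠ z in 𝓝 m, p.1 z < p.2 :=
        (p.1.continuous.continuousAt).eventually (gt_mem_nhds h)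
      filter_upwards [this] with z hz _
      exact hz.le
    · rw [hmφ] at h
      have a1 := hx p hp
      have a2 := hy p hp
      have e1 : p.1 x = p.2 := by linarith
      have e2 : p.1 y = p.2 := by linarith
      have hw : y - x ≠ 0 := sub_ne_zero.2 hxy.symm
      obtain ⟨l, hl⟩ := n1_prop (ψ := p.1) hφ hw (by rw [map_sub, hxc, hyc, sub_self])
        (by rw [map_sub, e1, e2, sub_self])
      have hl0 : 0 ≤ l := by
        have b1 := hz0K p hp
        rw [← e1, hl, hl x, hxc] at b1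
        by_contra hcon
        push Not at hcon
        nlinarith
      refine Eventually.of_forall fun z hz => ?_
      rw [← e1, hl, hl x, hxc]
      exact mul_le_mul_of_nonneg_left hz hl0
  have := (eventually_all_finset s).2 main
  filter_upwards [this] with z hz hzc p hp
  exact hz p hp hzc

theorem n1_edges_finite {K : Set ℂ} (hK : IsPolygon K) : {e | IsEdge K e}.Finite := by
  have hK' := hK
  obtain ⟨_, _, _, s, hs, hKs⟩ := hK'
  refine (s.finite_toSet.image (fun p => {z | z ∈ K ∧ p.1 z = p.2})).subset ?_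
  rintro e ⟨hn, φ, c, hφ, hle, rfl⟩
  obtain ⟨x, ⟨hx, hxc⟩, y, ⟨hy, hyc⟩, hxy⟩ := hn
  set m : ℂ := (1 / 2 : ℝ) • (x + y) with hm
  have hmφ : ∀ χ : ℂ →L[ℝ] ℝ, χ m = (χ x + χ y) / 2 := by
    intro χ
    rw [hm, map_smul, map_add, smul_eq_mul]
    ring
  obtain ⟨p, hp, hpm⟩ : ∃ p ∈ s, p.2 ≤ p.1 m := by
    by_contra hcon
    push Not at hcon
    have hKm : K ∈ 𝓝 m := by
      have : ∀ p ∈ s, ∀ᶠ z in 𝓝 m, p.1 z ≤ p.2 := by
        intro p hp
        have : ∀ᶠ z in 𝓝 m, p.1 z < p.2 :=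
          (p.1.continuous.continuousAt).eventually (gt_mem_nhds (hcon p hp))
        filter_upwards [this] with z hz
        exact hz.le
      have h2 := (eventually_all_finset s).2 this
      rw [hKs]
      exact h2
    have := n1_lt hφ hle hKm
    rw [hmφ, hxc, hyc] at this
    linarith
  rw [hmφ] at hpm
  have hx' := hx
  have hy' := hy
  rw [hKs] at hx' hy'
  have a1 := hx' p hp
  have a2 := hy' p hp
  have e1 : p.1 x = p.2 := by linarith
  have e2 : p.1 y = p.2 := by linarith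
  have hw : y - x ≠ 0 := sub_ne_zero.2 hxy.symm
  obtain ⟨l, hl⟩ := n1_prop (ψ := p.1) hφ hw (by rw [map_sub, hxc, hyc, sub_self])
    (by rw [map_sub, e1, e2, sub_self])
  have hl0 : l ≠ 0 := by
    rintro rfl
    apply hs p hp
    ext z
    rw [hl z]
    simp
  refine ⟨p, hp, ?_⟩
  ext z
  simp only [mem_ofPred_eq]
  rw [← e1, hl z, hl x, hxc]
  constructor
  · rintro ⟨h1, h2⟩
    exact ⟨h1, mul_left_cancel₀ hl0 h2⟩
  · rintro ⟨h1, h2⟩
    exact ⟨h1, by rw [h2]⟩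

/-- two polygons with the same edge on the same side overlap -/
theorem n1_overlap {K L : Set ℂ} (hK : IsPolygon K) (hL : IsPolygon L) {φ ψ : ℂ →L[ℝ] ℝ} {c d l : ℝ}
    (hφ : φ ≠ 0) (hψ : ψ ≠ 0) (hK1 : ∀ x ∈ K, φ x ≤ c) (hL1 : ∀ x ∈ L, ψ x ≤ d) {x y : ℂ}
    (hxy : x ≠ y) (hxK : x ∈ K) (hyK : y ∈ K) (hxL : x ∈ L) (hyL : y ∈ L) (hxc : φ x = c)
    (hyc : φ y = c) (hxd : ψ x = d) (hyd : ψ y = d) (hl : ∀ z, ψ z = l * φ z) (hl0 : 0 < l) :
    ¬ Disjoint (interior K) (interior L) := by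
  have h1 := n1_half hK hφ hK1 hxK hyK hxy hxc hyc
  have h2 := n1_half hL hψ hL1 hxL hyL hxy hxd hyd
  obtain ⟨ε, hε, hb⟩ := Metric.eventually_nhds_iff_ball.1 (h1.and h2)
  set m : ℂ := (1 / 2 : ℝ) • (x + y) with hm
  have hmφ : φ m = c := by
    rw [hm, map_smul, map_add, smul_eq_mul, hxc, hyc]
    ring
  clear_value m
  obtain ⟨w, hw⟩ : ∃ w, φ w ≠ 0 := by
    by_contra hcon
    push Not at hcon
    exact hφ (ContinuousLinearMap.ext hcon)
  have hw0 : w ≠ 0 := by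
    rintro rfl
    exact hw (map_zero φ)
  have hwn : 0 < ‖w‖ := norm_pos_iff.2 hw0
  obtain ⟨t, ht, htφ⟩ : ∃ t : ℝ, |t| * ‖w‖ < ε ∧ t * φ w < 0 := by
    rcases lt_or_gt_of_ne hw with h | h
    · refine ⟨ε / (2 * ‖w‖), ?_, ?_⟩
      · rw [abs_of_pos (by positivity)]
        have : ε / (2 * ‖w‖) * ‖w‖ = ε / 2 := by field_simp
        rw [this]
        linarith
      · exact mul_neg_of_pos_of_neg (by positivity) h
    · refine ⟨-(ε / (2 * ‖w‖)), ?_, ?_⟩
      · rw [abs_neg, abs_of_pos (by positivity)]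
        have : ε / (2 * ‖w‖) * ‖w‖ = ε / 2 := by field_simp
        rw [this]
        linarith
      · have : 0 < ε / (2 * ‖w‖) := by positivity
        nlinarith
  set z : ℂ := m + t • w with hz
  have hzb : z ∈ Metric.ball m ε := by
    rw [Metric.mem_ball, dist_eq_norm, hz, add_sub_cancel_left, norm_smul, Real.norm_eq_abs]
    exact ht
  have hzc : φ z < c := by
    rw [hz, map_add, map_smul, smul_eq_mul, hmφ]
    linarith
  have hd : d = l * c := by rw [← hxd, hl, hxc]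
  have hnb : ∀ᶠ u in 𝓝 z, u ∈ Metric.ball m ε ∧ φ u < c := by
    filter_upwards [Metric.isOpen_ball.mem_nhds hzb,
      (φ.continuous.continuousAt).eventually (gt_mem_nhds hzc)] with u hu1 hu2
    exact ⟨hu1, hu2⟩
  have hzK : z ∈ interior K := by
    rw [mem_interior_iff_mem_nhds]
    filter_upwards [hnb] with u hu
    exact (hb u hu.1).1 hu.2.le
  have hzL : z ∈ interior L := by
    rw [mem_interior_iff_mem_nhds]
    filter_upwards [hnb] with u hu
    refine (hb u hu.1).2 ?_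
    rw [hl u, hd]
    exact mul_le_mul_of_nonneg_left hu.2.le hl0.le
  exact Set.not_disjoint_iff.2 ⟨z, hzK, hzL⟩

/-- PIECE N1: every tile has finitely many neighbours -/
theorem nbr_finite {C : Type} {T : Set (Pool.Agent.K4H72.Til.Tile C)}
    (hT : Pool.Agent.K4H72.Til.IsTiling T) (v : T) :
    {u : T | Pool.Agent.K4H72.Til.Adj u v}.Finite := by
  classical
  have hpol : ∀ u : T, IsPolygon u.1.1 := fun u => hT.polygon u.1 u.2
  have hsh : ∀ u : T, Adj u v → Share u.1.1 v.1.1 := fun u hu => (share_iff (hpol u) (hpol v)).1 hu.2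
  let f : T → Set ℂ := fun u => if h : Adj u v then Classical.choose (hsh u h) else ∅
  have hf : ∀ u : T, Adj u v → IsEdge u.1.1 (f u) ∧ IsEdge v.1.1 (f u) := by
    intro u hu
    have : f u = Classical.choose (hsh u hu) := dif_pos hu
    rw [this]
    exact Classical.choose_spec (hsh u hu)
  refine Set.Finite.of_injOn (f := f) (t := {e | IsEdge v.1.1 e}) (fun u hu => (hf u hu).2) ?_
    (n1_edges_finite (hpol v))
  intro u hu u' hu' huu
  by_contra hne
  have hu : Adj u v := hu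
  have hu' : Adj u' v := hu'
  obtain ⟨⟨hn, φ, c, hφ, hφ1, he⟩, ⟨_, χ, b, hχ, hχ1, heb⟩⟩ := hf u hu
  obtain ⟨⟨_, ψ, d, hψ, hψ1, he'⟩, _⟩ := hf u' hu'
  rw [← huu] at he'
  obtain ⟨x, hx, y, hy, hxy⟩ := hn
  have x1 := hx
  have x2 := hx
  have x3 := hx
  have y1 := hy
  have y2 := hy
  have y3 := hy
  rw [he] at x1 y1
  rw [heb] at x2 y2
  rw [he'] at x3 y3
  have hw : y - x ≠ 0 := sub_ne_zero.2 hxy.symm
  have k1 : φ (y - x) = 0 := by rw [map_sub, x1.2, y1.2, sub_self]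
  have k2 : χ (y - x) = 0 := by rw [map_sub, x2.2, y2.2, sub_self]
  have k3 : ψ (y - x) = 0 := by rw [map_sub, x3.2, y3.2, sub_self]
  obtain ⟨l1, hl1⟩ := n1_prop hχ hw k2 k1
  obtain ⟨l2, hl2⟩ := n1_prop hχ hw k2 k3
  have q1 : l1 < 0 := by
    rcases lt_trichotomy l1 0 with h | h | h
    · exact h
    · exfalso
      apply hφ
      ext z
      rw [hl1 z, h]
      simp
    · exfalso
      exact n1_overlap (hpol v) (hpol u) hχ hφ hχ1 hφ1 hxy x2.1 y2.1 x1.1 y1.1 x2.2 y2.2 x1.2 y1.2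
        hl1 h (hT.disj v.1 v.2 u.1 u.2 (fun h' => hu.1 (Subtype.ext h'.symm)))
  have q2 : l2 < 0 := by
    rcases lt_trichotomy l2 0 with h | h | h
    · exact h
    · exfalso
      apply hψ
      ext z
      rw [hl2 z, h]
      simp
    · exfalso
      exact n1_overlap (hpol v) (hpol u') hχ hψ hχ1 hψ1 hxy x2.1 y2.1 x3.1 y3.1 x2.2 y2.2 x3.2 y3.2
        hl2 h (hT.disj v.1 v.2 u'.1 u'.2 (fun h' => hu'.1 (Subtype.ext h'.symm)))
  have hl : ∀ z, ψ z = (l2 / l1) * φ z := by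
    intro z
    rw [hl1 z, hl2 z]
    have := q1.ne
    field_simp
  exact n1_overlap (hpol u) (hpol u') hφ hψ hφ1 hψ1 hxy x1.1 y1.1 x3.1 y3.1 x1.2 y1.2 x3.2 y3.2
    hl (div_pos_of_neg_of_neg q2 q1) (hT.disj u.1 u.2 u'.1 u'.2 (fun h' => hne (Subtype.ext h')))

end Pool.Agent.K4H59.TL
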